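import Pool.Agent.Berry.MAIN

/-!
# Berry triangulations are heteroperturbative
-/

namespace Pool.Agent.Results.MP_0c5066_co.BerryHeteroperturbative

open Pool.Agent.Berry

/-- A family `P` of geodesic triangulations of the unit sphere (given by the set `F` of their faces
and by their vertices `x i`) is heteroperturbative: for every member `T` of the family, every member
`T'` with the same combinatorics and with vertices sufficiently close to those of `T`, in which the
length of at least one edge has changed, has an edge which is strictly longer and an edge which is
strictly shorter than the corresponding edge of `T`. -/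
def Heteroperturbative
    (P : ∀ (ι : Type) [DecidableEq ι], Set (Finset ι) → (ι → E) → Prop) : Prop :=
  ∀ (ι : Type) [Finite ι] [DecidableEq ι] (F : Set (Finset ι)) (x : ι → E), P ι F x →
    ∃ ε > 0, ∀ x' : ι → E, P ι F x' → (∀ i, dist (x' i) (x i) < ε) →
      (∃ i j, IsEdge F i j ∧ arc (x' i) (x' j) ≠ arc (x i) (x j)) →
      (∃ i j, IsEdge F i j ∧ arc (x i) (x j) < arc (x' i) (x' j)) ∧
      (∃ i j, IsEdge F i j ∧ arc (x' i) (x' j) < arc (x i) (x j))

/-- The family of all berry triangulations is heteroperturbative. -/
theorem result : Heteroperturbative (fun _ _ F x => IsBerryTri F x) := by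
  intro ι _ _ F x h
  haveI := Fintype.ofFinite ι
  exact berry_main h

end Pool.Agent.Results.MP_0c5066_co.BerryHeteroperturbative
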